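import Pool.Agent.MP_48844b_co.H53.Words

/-! The letter frequency of the run-length pair over `{1, 8k}` is irrational. -/

namespace Pool.Agent.MP_48844b_co.H53

open Pool.Agent.MP_48844b_co Finset Filter Topology

def sm (g : A → ℕ) (l : List A) : ℕ := (l.map g).sum

lemma sm_nil (g : A → ℕ) : sm g [] = 0 := rfl

lemma sm_cons (g : A → ℕ) (e : A) (l : List A) : sm g (e :: l) = g e + sm g l := by
  simp [sm]

lemma sm_append (g : A → ℕ) (l l' : List A) : sm g (l ++ l') = sm g l + sm g l' := by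
  simp [sm]

lemma sm_reverse (g : A → ℕ) (l : List A) : sm g l.reverse = sm g l := by
  simp [sm, List.map_reverse, List.sum_reverse]

lemma sm_flatMap (g : A → ℕ) (φ : A → List A) (l : List A) :
    sm g (l.flatMap φ) = sm (fun e => sm g (φ e)) l := by
  induction l with
  | nil => rfl
  | cons e l ih => rw [List.flatMap_cons, sm_append, sm_cons, ih]

lemma sm_replicate (g : A → ℕ) (l : List A) (k : ℕ) :
    sm g (List.replicate k l).flatten = k * sm g l := by
  induction k with
  | zero => simp [sm]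
  | succ k ih => rw [List.replicate_succ, List.flatten_cons, sm_append, ih]; ring

lemma sm_one (l : List A) : sm (fun _ => 1) l = l.length := by
  induction l with
  | nil => rfl
  | cons e l ih => rw [sm_cons, ih, List.length_cons]; ring

lemma sm_le {g g' : A → ℕ} {c c' d d' : ℕ} (h : ∀ e, c * g e + d ≤ c' * g' e + d') (l : List A) :
    c * sm g l + d * l.length ≤ c' * sm g' l + d' * l.length := by
  induction l with
  | nil => simp [sm_nil]
  | cons e l ih =>
    rw [sm_cons, sm_cons, List.length_cons]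
    have := h e
    nlinarith

/-- length of the `m`-fold image of a letter -/
def ell (k : ℕ) : ℕ → A → ℕ
  | 0 => fun _ => 1
  | m + 1 => fun e => sm (ell k m) (θ k e)

variable {k : ℕ}

lemma ell_succ (m : ℕ) (e : A) : ell k (m + 1) e = sm (ell k m) (θ k e) := rfl

lemma sm_θ (m : ℕ) (l : List A) : sm (ell k m) (l.flatMap (θ k)) = sm (ell k (m + 1)) l := by
  rw [sm_flatMap]; rfl

lemma sm_θ' (m : ℕ) (l : List A) : sm (ell k m) (l.flatMap (θ' k)) = sm (ell k (m + 1)) l := by
  rw [sm_flatMap]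
  simp only [θ', sm_reverse]
  rfl

lemma sm_it (n : ℕ) : ∀ (m : ℕ) (l : List A),
    sm (ell k m) (it (ρ k) n l) = sm (ell k (m + 2 * n)) l := by
  induction n with
  | zero => intro m l; rfl
  | succ n ih =>
    intro m l
    rw [it_succ', flat_ρ, sm_θ, sm_θ', ih]
    congr 2
    ring

lemma sm_it_single (m n : ℕ) (e : A) : sm (ell k m) (it (ρ k) n [e]) = ell k (m + 2 * n) e := by
  rw [sm_it, sm_cons, sm_nil, add_zero]

lemma ell_even (n : ℕ) (e : A) : ell k (2 * n) e = (it (ρ k) n [e]).length := by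
  rw [← sm_one, show (fun _ : A => 1) = ell k 0 from rfl, sm_it_single, zero_add]

lemma ell_one (e : A) : ell k 1 e = val k e := by
  rw [← θ_len, ← sm_one]; rfl

lemma sm_val (l : List A) :
    (sm (ell k 1) l : ℝ) = c1 (val k) l + 8 * k * ((l.length : ℝ) - c1 (val k) l) := by
  induction l with
  | nil => simp [sm_nil, c1]
  | cons e l ih =>
    rw [sm_cons, ell_one, Nat.cast_add, ih, List.length_cons]
    cases h : lab e with
    | true =>
      have h1 : val k e = 8 * k := by simp [val, h]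
      have h2 : ¬ (8 * k = 1) := by omega
      simp only [c1, List.countP_cons, h1, h2, decide_false]
      push_cast
      simp
      ring
    | false =>
      have h1 : val k e = 1 := by simp [val, h]
      simp only [c1, List.countP_cons, h1, decide_true]
      push_cast
      simp
      ring

section poly

def ev (j : ℕ) : List ℕ → ℕ
  | [] => 0
  | c :: p => c + j * ev j p

variable {j : ℕ}

lemma ev_padd : ∀ p q : List ℕ, ev j (padd p q) = ev j p + ev j q
  | [], q => by simp [padd, ev]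
  | x :: p, [] => by simp [padd, ev]
  | x :: p, y :: q => by
    simp only [padd, ev, ev_padd p q]
    ring

lemma ev_ple : ∀ p q : List ℕ, ple p q = true → ev j p ≤ ev j q
  | [], q, _ => by simp [ev]
  | x :: p, [], h => by
    simp only [ple, Bool.and_eq_true, decide_eq_true_eq] at h
    have := ev_ple p [] h.2
    simp only [ev, Nat.le_zero] at this ⊢
    simp [h.1, this]
  | x :: p, y :: q, h => by
    simp only [ple, Bool.and_eq_true, decide_eq_true_eq] at h
    have := ev_ple p q h.2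
    simp only [ev]
    have := h.1
    gcongr

lemma ev_pmulc (c : ℕ) : ∀ p : List ℕ, ev j (pmulc c p) = c * ev j p
  | [] => by simp [pmulc, ev]
  | x :: p => by
    have := ev_pmulc c p
    simp only [pmulc, List.map_cons, ev] at this ⊢
    rw [this]
    ring

lemma ev_psum (V : A → List ℕ) : ∀ l : List A, ev j (psum V l) = sm (fun e => ev j (V e)) l
  | [] => rfl
  | f :: l => by rw [psum, ev_padd, ev_psum V l, sm_cons]

lemma ev_step {V V' : A → List ℕ} {m : ℕ} (h : ∀ e, V' e = pstep V e)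
    (hV : ∀ e, ev j (V e) = ell (j + 1) m e) (e : A) : ev j (V' e) = ell (j + 1) (m + 1) e := by
  have hV' : (fun e => ev j (V e)) = ell (j + 1) m := funext hV
  have e1 : ell (j + 1) (m + 1) e = sm (ell (j + 1) m) (θ (j + 1) e) := rfl
  rw [h, pstep, e1, θ]
  split_ifs
  · rw [ev_padd, ev, ev_psum, hV', sm_replicate]
    ring
  · rw [ev_psum, hV']

lemma ev8 (e : A) : ev j (V8 e) = ell (j + 1) 8 e :=
  ev_step st8 (ev_step st7 (ev_step st6 (ev_step st5 (ev_step st4 (ev_step st3 (ev_step st2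
    (ev_step st1 (fun e => by rw [V0_eq]; simp [ev, ell])))))))) e

lemma ev9 (e : A) : ev j (V9 e) = ell (j + 1) 9 e := ev_step st9 ev8 e

end poly

lemma ell_low (hk : 0 < k) (e : A) : 4 * k * ell k 8 e + 1 ≤ 1 * ell k 9 e + 0 := by
  obtain ⟨j, rfl⟩ : ∃ j, k = j + 1 := ⟨k - 1, by omega⟩
  have h := ev_ple (j := j) _ _ (lowB e)
  simp only [ev_padd, ev, ev_pmulc, ev8, ev9] at h
  nlinarith

lemma ell_high (hk : 0 < k) (e : A) : 1 * ell k 9 e + 1 ≤ (4 * k + 1) * ell k 8 e + 0 := by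
  obtain ⟨j, rfl⟩ : ∃ j, k = j + 1 := ⟨k - 1, by omega⟩
  have h := ev_ple (j := j) _ _ (highB e)
  simp only [ev_padd, ev, ev_pmulc, ev8, ev9] at h
  nlinarith

variable {w : ℕ → A} {α : ℝ}

lemma len_ge (hk : 0 < k) (n : ℕ) (e : A) : n < (it (ρ k) (n + 6) [e]).length := by
  obtain ⟨u, h1, h2⟩ := θ_six hk
  have h3 : ρ k 0 = 0 :: u := by rw [ρ, θ'_zero, List.flatMap_singleton, h1]
  have h4 := it_grow (ρ_ne hk) h3 h2 n
  rw [it_add]
  exact lt_of_lt_of_le h4 (it_mem_infix n (prim hk e 0)).length_le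

lemma ell_pos (hk : 0 < k) (m : ℕ) : ∀ e, 0 < ell k m e := by
  induction m with
  | zero => intro e; simp [ell]
  | succ m ih =>
    intro e
    obtain ⟨f, l, h⟩ := List.exists_cons_of_ne_nil (θ_ne hk e)
    rw [ell_succ, h, sm_cons]
    have := ih f
    omega

lemma ratio (hk : 0 < k) (hw : Fix (ρ k) 0 w) (hα : UF (fun n => val k (w n)) α) (e : A) :
    Tendsto (fun n => (ell k (2 * n + 1) e : ℝ) / ell k (2 * n) e) atTop
      (𝓝 (α + 8 * k * (1 - α))) := by
  have h1 : ∀ n, ∃ z, it (ρ k) n [e] = seg w z (it (ρ k) n [e]).length := by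
    intro n
    refine hw.factor (n := n + 6) ?_
    rw [it_add]
    exact it_mem_infix n (prim hk 0 e)
  choose z hz using h1
  have h2 : Tendsto (fun n => (it (ρ k) n [e]).length) atTop atTop := by
    rw [← tendsto_add_atTop_iff_nat 6]
    exact tendsto_atTop_mono (fun n => (len_ge hk n e).le) tendsto_id
  have h3 := hα.tendsto (x := z) h2
  have h4 := h3.add ((h3.const_sub 1).const_mul (8 * (k : ℝ)))
  refine h4.congr fun n => ?_
  have h5 : (0 : ℝ) < (it (ρ k) n [e]).length := by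
    rw [← ell_even]
    exact_mod_cast ell_pos hk _ e
  have h6 : c1 (val k) (it (ρ k) n [e]) =
      cnt (fun n => val k (w n)) (z n) (it (ρ k) n [e]).length := by
    rw [← c1_seg (w := w) (τ := val k) (fun _ => rfl), ← hz n]
  rw [add_comm (2 * n) 1, ← sm_it_single, sm_val, ell_even, h6]
  field_simp

lemma integral_mu (hk : 0 < k) (hw : Fix (ρ k) 0 w) (hα : UF (fun n => val k (w n)) α) :
    IsIntegral ℤ (α + 8 * k * (1 - α)) := by
  let L : (A → ℤ) →ₗ[ℤ] (A → ℤ) :=
    { toFun := fun g e => ((ρ k e).map g).sum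
      map_add' := fun g g' => by
        funext e
        exact List.sum_map_add (l := ρ k e) (f := g) (g := g')
      map_smul' := fun c g => by
        funext e
        exact List.sum_map_mul_left (ρ k e) g c }
  have hL : ∀ (g : A → ℕ) (l : List A), (l.map (fun e => (g e : ℤ))).sum = (sm g l : ℤ) := by
    intro g l
    induction l with
    | nil => simp [sm_nil]
    | cons e l ih => rw [List.map_cons, List.sum_cons, ih, sm_cons]; push_cast; ring
  have h1 := (ratio hk hw hα 6).mul (ratio hk hw hα 0)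
  rw [← sq] at h1
  refine IsIntegral.of_pow (n := 2) (by norm_num) ?_
  refine integral_of_coord L (fun i e => (ell k (2 * i) e : ℤ)) (fun i => ?_) _ 0
    (fun i => by exact_mod_cast ell_pos hk _ 0) (h1.congr fun i => ?_)
  · funext e
    show (ell k (2 * (i + 1)) e : ℤ) = ((ρ k e).map (fun e => (ell k (2 * i) e : ℤ))).sum
    rw [hL, ← it_one (σ := ρ k), sm_it_single]
    congr 2
  · have e1 : ∀ m, ell k (m + 1) 0 = ell k m 6 := fun m => by
      rw [ell_succ, show θ k 0 = [6] from rfl, sm_cons, sm_nil, add_zero]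
    have p1 : (0 : ℝ) < ell k (2 * i) 6 := by exact_mod_cast ell_pos hk _ 6
    have p2 : (0 : ℝ) < ell k (2 * i) 0 := by exact_mod_cast ell_pos hk _ 0
    rw [show 2 * (i + 1) = 2 * i + 1 + 1 by ring, e1 (2 * i + 1), e1 (2 * i)]
    push_cast
    field_simp

lemma arith {k C s8 s9 L : ℕ} (hC : 0 < C) (p : 0 < s8)
    (a1 : 4 * k * s8 + 1 * L ≤ 1 * s9 + 0 * L) (a2 : 1 * s9 + 1 * L ≤ (4 * k + 1) * s8 + 0 * L)
    (a3 : 1 * s8 + 0 * L ≤ 0 * s8 + C * L) :
    4 * (k : ℝ) + 1 / C ≤ (s9 : ℝ) / s8 ∧ (s9 : ℝ) / s8 ≤ 4 * k + 1 - 1 / C := by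
  have hC0 : (0 : ℝ) < C := by exact_mod_cast hC
  have p' : (0 : ℝ) < s8 := by exact_mod_cast p
  have b1 : 4 * (k : ℝ) * s8 + L ≤ s9 := by
    have : 4 * k * s8 + L ≤ s9 := by omega
    exact_mod_cast this
  have b2 : (s9 : ℝ) + L ≤ (4 * k + 1) * s8 := by
    have : s9 + L ≤ (4 * k + 1) * s8 := by omega
    exact_mod_cast this
  have b3 : (s8 : ℝ) ≤ C * L := by
    have : s8 ≤ C * L := by omega
    exact_mod_cast this
  have b4 : 1 / (C : ℝ) * s8 ≤ L := by
    rw [one_div, inv_mul_le_iff₀ hC0]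
    exact b3
  rw [le_div_iff₀ p', div_le_iff₀ p']
  constructor <;> nlinarith

lemma sm_le_const {g : A → ℕ} {C : ℕ} (h : ∀ e, g e ≤ C) (l : List A) :
    1 * sm g l + 0 * l.length ≤ 0 * sm g l + C * l.length :=
  sm_le (fun e => by have := h e; omega) l

lemma exists_bound (g : A → ℕ) : ∃ C, 0 < C ∧ ∀ e, g e ≤ C :=
  ⟨∑ e, g e + 1, Nat.succ_pos _, fun e => Nat.le_succ_of_le
    (Finset.single_le_sum (f := g) (fun _ _ => Nat.zero_le _) (Finset.mem_univ e))⟩

lemma mu_bounds (hk : 0 < k) (hw : Fix (ρ k) 0 w) (hα : UF (fun n => val k (w n)) α) :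
    4 * k < α + 8 * k * (1 - α) ∧ α + 8 * k * (1 - α) < 4 * k + 1 := by
  obtain ⟨C, hC, hCe⟩ := exists_bound (ell k 8)
  have hC0 : (0 : ℝ) < C := by exact_mod_cast hC
  have h1 := (ratio hk hw hα 0).comp (tendsto_add_atTop_nat 4)
  have key : ∀ n, 4 * (k : ℝ) + 1 / C ≤ (ell k (2 * (n + 4) + 1) 0 : ℝ) / ell k (2 * (n + 4)) 0 ∧
      (ell k (2 * (n + 4) + 1) 0 : ℝ) / ell k (2 * (n + 4)) 0 ≤ 4 * k + 1 - 1 / C := by
    intro n
    have a1 := sm_le (g := ell k 8) (g' := ell k 9) (c := 4 * k) (c' := 1) (d := 1) (d' := 0)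
      (ell_low hk) (it (ρ k) n [0])
    have a2 := sm_le (g := ell k 9) (g' := ell k 8) (c := 1) (c' := 4 * k + 1) (d := 1) (d' := 0)
      (ell_high hk) (it (ρ k) n [0])
    have a3 := sm_le_const hCe (it (ρ k) n [0])
    rw [sm_it_single 8, sm_it_single 9] at a1
    rw [sm_it_single 8, sm_it_single 9] at a2
    rw [sm_it_single 8] at a3
    rw [show 2 * (n + 4) + 1 = 9 + 2 * n by ring, show 2 * (n + 4) = 8 + 2 * n by ring]
    exact arith hC (ell_pos hk _ 0) a1 a2 a3
  have c1 := ge_of_tendsto' h1 (fun n => (key n).1)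
  have c2 := le_of_tendsto' h1 (fun n => (key n).2)
  have : (0 : ℝ) < 1 / C := by positivity
  constructor <;> linarith

theorem freq (hk : 0 < k) (hw : Fix (ρ k) 0 w) :
    ∃ α : ℝ, Irrational α ∧ UF (fun n => val k (w n)) α := by
  obtain ⟨α, hα⟩ := uf_of_primitive (K := fun n => val k (w n)) hw (τ := val k) (fun _ => rfl)
    (prim hk)
  refine ⟨α, ?_, hα⟩
  have h1 := integral_mu hk hw hα
  obtain ⟨b1, b2⟩ := mu_bounds hk hw hα
  rintro ⟨q, rfl⟩
  have e : (q : ℝ) + 8 * k * (1 - q) = algebraMap ℚ ℝ (q + 8 * k * (1 - q)) := by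
    simp
  rw [e] at h1 b1 b2
  obtain ⟨z, hz⟩ := IsIntegrallyClosed.isIntegral_iff.1
    ((isIntegral_algebraMap_iff (algebraMap ℚ ℝ).injective).1 h1)
  rw [← hz] at b1 b2
  simp only [eq_intCast, eq_ratCast, Rat.cast_intCast] at b1 b2
  have d1 : 4 * (k : ℤ) < z := by exact_mod_cast b1
  have d2 : z < 4 * (k : ℤ) + 1 := by exact_mod_cast b2
  omega

end Pool.Agent.MP_48844b_co.H53
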