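import Pool.Agent.MP_48844b_co.H53.Freq

namespace Pool.Agent.MP_48844b_co.H53.MixedFrequency

theorem result :
    ∀ b : ℕ, 0 < b → 8 ∣ b →
      ∃ x y : ℕ → ℕ,
        (∀ n, x n = 1 ∨ x n = b) ∧ (∀ n, y n = 1 ∨ y n = b) ∧
        (∀ n i, (∑ j ∈ Finset.range i, y j) ≤ n → n < (∑ j ∈ Finset.range (i + 1), y j) →
          x n = if i % 2 = 0 then 1 else b) ∧
        (∀ n i, (∑ j ∈ Finset.range i, x j) ≤ n → n < (∑ j ∈ Finset.range (i + 1), x j) →
          y n = if i % 2 = 0 then b else 1) ∧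
        ∃ α : ℝ, Irrational α ∧
          Filter.Tendsto
            (fun n : ℕ => (((Finset.range n).filter (fun i => x i = 1)).card : ℝ) / n)
            Filter.atTop (nhds α) := by
  rintro b hb ⟨k, rfl⟩
  have hk : 0 < k := by omega
  obtain ⟨w, hw⟩ := MP_48844b_co.H53.fix_w hk
  obtain ⟨v, hv⟩ := MP_48844b_co.H53.fix_v hk
  obtain ⟨α, h1, h2⟩ := MP_48844b_co.H53.freq hk hw
  have hval : ∀ e, MP_48844b_co.H53.val k e = 1 ∨ MP_48844b_co.H53.val k e = 8 * k := by
    intro e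
    unfold MP_48844b_co.H53.val
    split_ifs <;> simp
  refine ⟨fun n => MP_48844b_co.H53.val k (w n), fun n => MP_48844b_co.H53.val k (v n),
    fun n => hval _, fun n => hval _, fun n i a1 a2 => MP_48844b_co.H53.run_w hk hw hv a1 a2,
    fun n i a1 a2 => MP_48844b_co.H53.run_v hk hw hv a1 a2, α, h1, ?_⟩
  have := h2.tendsto (x := fun _ => 0) (n := fun n => n) Filter.tendsto_id
  simpa [MP_48844b_co.cnt] using this

end Pool.Agent.MP_48844b_co.H53.MixedFrequency
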