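import Pool.Agent.MP_48844b_co.H53.Data

/-! The two typed words and their run-length property. -/

namespace Pool.Agent.MP_48844b_co.H53

open Pool.Agent.MP_48844b_co Finset

section paths

variable {s t s' t' : A → Q}

lemma path_append : ∀ {l l' : List A} {p q r : Q}, pathB s t p l q = true →
    pathB s t q l' r = true → pathB s t p (l ++ l') r = true
  | [], _, p, q, _, h, h' => by
    simp only [pathB, decide_eq_true_eq] at h
    subst h
    exact h'
  | e :: l, l', p, q, r, h, h' => by
    simp only [pathB, Bool.and_eq_true, decide_eq_true_eq, List.cons_append] at h ⊢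
    exact ⟨h.1, path_append h.2 h'⟩

lemma path_split : ∀ {l l' : List A} {p r : Q}, pathB s t p (l ++ l') r = true →
    ∃ q, pathB s t p l q = true ∧ pathB s t q l' r = true
  | [], _, p, _, h => ⟨p, by simp [pathB], h⟩
  | e :: l, l', p, r, h => by
    simp only [pathB, Bool.and_eq_true, decide_eq_true_eq, List.cons_append] at h ⊢
    obtain ⟨q, h1, h2⟩ := path_split h.2
    exact ⟨q, ⟨h.1, h1⟩, h2⟩

lemma path_reverse : ∀ {l : List A} {p q : Q}, pathB s t p l q = true →
    pathB t s q l.reverse p = true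
  | [], p, q, h => by
    simp only [pathB, decide_eq_true_eq, List.reverse_nil] at h ⊢
    exact h.symm
  | e :: l, p, q, h => by
    simp only [pathB, Bool.and_eq_true, decide_eq_true_eq] at h
    rw [List.reverse_cons]
    refine path_append (path_reverse h.2) ?_
    simp [pathB, h.1]

lemma path_flatMap {f : Q → Q} {φ : A → List A}
    (hφ : ∀ e, pathB s' t' (f (s e)) (φ e) (f (t e)) = true) :
    ∀ {l : List A} {p q : Q}, pathB s t p l q = true →
      pathB s' t' (f p) (l.flatMap φ) (f q) = true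
  | [], p, q, h => by
    simp only [pathB, decide_eq_true_eq] at h
    subst h
    simp [pathB]
  | e :: l, p, q, h => by
    simp only [pathB, Bool.and_eq_true, decide_eq_true_eq] at h
    rw [List.flatMap_cons]
    refine path_append ?_ (path_flatMap hφ h.2)
    rw [← h.1]
    exact hφ e

lemma path_replicate {l : List A} {p : Q} (h : pathB s t p l p = true) (k : ℕ) :
    pathB s t p (List.replicate k l).flatten p = true := by
  induction k with
  | zero => simp [pathB]
  | succ k ih =>
    rw [List.replicate_succ, List.flatten_cons]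
    exact path_append h ih

lemma path_adj {w : ℕ → A} {L n : ℕ} {p q : Q} (h : pathB s t p (seg w 0 L) q = true)
    (hn : n + 2 ≤ L) : t (w n) = s (w (n + 1)) := by
  rw [show L = n + (2 + (L - n - 2)) by omega, seg_append, seg_append] at h
  obtain ⟨q1, -, h2⟩ := path_split h
  obtain ⟨q2, h3, -⟩ := path_split h2
  have e : seg w (0 + n) 2 = [w n, w (n + 1)] := by simp [seg, List.range_succ]
  rw [e] at h3
  simp only [pathB, Bool.and_eq_true, decide_eq_true_eq] at h3
  exact h3.2.1.symm

end paths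

section fix

variable {σ : A → List A} {a : A}

lemma len_flatMap_ge {φ : A → List A} (h : ∀ e, φ e ≠ []) (l : List A) :
    l.length ≤ (l.flatMap φ).length := by
  induction l with
  | nil => simp
  | cons e l ih =>
    rw [List.flatMap_cons, List.length_append, List.length_cons]
    have := List.length_pos_iff.2 (h e)
    omega

lemma it_len_ge (h : ∀ e, σ e ≠ []) (n : ℕ) (l : List A) : l.length ≤ (it σ n l).length := by
  induction n with
  | zero => simp
  | succ n ih => rw [it_succ']; exact ih.trans (len_flatMap_ge h _)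

lemma it_grow (h : ∀ e, σ e ≠ []) {u : List A} (ha : σ a = a :: u) (hu : u ≠ []) (n : ℕ) :
    n < (it σ n [a]).length := by
  induction n with
  | zero => simp
  | succ n ih =>
    rw [it_succ_single, ha, it_cons n a u, List.length_append]
    have := it_len_ge h n u
    have := List.length_pos_iff.2 hu
    omega

lemma it_pre {u : List A} (ha : σ a = a :: u) {n m : ℕ} (h : n ≤ m) :
    it σ n [a] <+: it σ m [a] := by
  induction m, h using Nat.le_induction with
  | base => exact List.prefix_refl _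
  | succ m _ ih =>
    refine ih.trans ?_
    rw [it_succ_single, ha, it_cons m a u]
    exact List.prefix_append _ _

lemma exists_fix (h : ∀ e, σ e ≠ []) {u : List A} (ha : σ a = a :: u) (hu : u ≠ []) :
    ∃ w, Fix σ a w := by
  refine ⟨fun m => (it σ m [a])[m]'(it_grow h ha hu m), ⟨fun n m x hx => ?_, fun N =>
    ⟨N, it_grow h ha hu N⟩⟩⟩
  obtain ⟨hm, rfl⟩ := List.getElem?_eq_some_iff.1 hx
  have h1 := (it_pre ha (le_max_left n m)).getElem hm
  have h2 := (it_pre ha (le_max_right n m)).getElem (it_grow h ha hu m)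
  rw [h1, h2]

end fix

lemma prefix_seg {v : ℕ → A} {u : List A} {L : ℕ} (h : u <+: seg v 0 L) :
    u = seg v 0 u.length := by
  apply eq_seg
  intro i hi
  have hL := h.length_le
  rw [seg_length] at hL
  obtain ⟨z, hz⟩ := h
  rw [← seg_get (show i < L by omega), ← hz, List.getElem?_append_left hi]

lemma len_seg_flatMap (w : ℕ → A) (φ : A → List A) (r : ℕ) :
    ((seg w 0 r).flatMap φ).length = ∑ j ∈ range r, (φ (w j)).length := by
  induction r with
  | zero => simp [seg]
  | succ r ih =>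
    rw [seg_succ, List.flatMap_append, List.length_append, ih, Finset.sum_range_succ]
    simp

lemma runs {w v : ℕ → A} {φ : A → List A}
    (hpre : ∀ r, ∃ L, (seg w 0 r).flatMap φ <+: seg v 0 L) {n i : ℕ}
    (h1 : ∑ j ∈ range i, (φ (w j)).length ≤ n) (h2 : n < ∑ j ∈ range (i + 1), (φ (w j)).length) :
    v n ∈ φ (w i) := by
  have e : ∀ r, (seg w 0 r).flatMap φ = seg v 0 (∑ j ∈ range r, (φ (w j)).length) := by
    intro r
    obtain ⟨L, hL⟩ := hpre r
    rw [← len_seg_flatMap]
    exact prefix_seg hL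
  have e1 := e (i + 1)
  rw [seg_succ, List.flatMap_append, e i, Finset.sum_range_succ, seg_append] at e1
  have e2 := List.append_cancel_left e1
  simp only [zero_add, List.flatMap_cons, List.flatMap_nil, List.append_nil] at e2
  rw [Finset.sum_range_succ] at h2
  rw [e2]
  simp only [seg, List.mem_map, List.mem_range]
  exact ⟨n - ∑ j ∈ range i, (φ (w j)).length, by omega, by congr 1; omega⟩

/-- one level down, forwards -/
def θ (k : ℕ) (e : A) : List A := if lab e then (List.replicate k (th e)).flatten else th e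

/-- one level down, backwards -/
def θ' (k : ℕ) (e : A) : List A := (θ k e).reverse

def ρ (k : ℕ) (e : A) : List A := (θ' k e).flatMap (θ k)

def ρ' (k : ℕ) (e : A) : List A := (θ k e).flatMap (θ' k)

def val (k : ℕ) (e : A) : ℕ := if lab e then 8 * k else 1

variable {k : ℕ}

lemma θ_len (e : A) : (θ k e).length = val k e := by
  unfold θ val
  cases h : lab e with
  | true => simp [(th_long e h).2, mul_comm]
  | false => simp [th_short e h]

lemma θ'_len (e : A) : (θ' k e).length = val k e := by rw [θ', List.length_reverse, θ_len]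

lemma val_pos (hk : 0 < k) (e : A) : 0 < val k e := by
  unfold val
  split_ifs <;> omega

lemma θ_ne (hk : 0 < k) (e : A) : θ k e ≠ [] :=
  List.length_pos_iff.1 (by rw [θ_len]; exact val_pos hk e)

lemma θ'_ne (hk : 0 < k) (e : A) : θ' k e ≠ [] :=
  List.length_pos_iff.1 (by rw [θ'_len]; exact val_pos hk e)

lemma mem_θ (hk : 0 < k) {e f : A} : f ∈ θ k e ↔ f ∈ th e := by
  unfold θ
  split_ifs
  · simp [List.mem_flatten, List.mem_replicate, hk.ne']
  · rfl

lemma mem_θ' (hk : 0 < k) {e f : A} : f ∈ θ' k e ↔ f ∈ th e := by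
  rw [θ', List.mem_reverse, mem_θ hk]

lemma θ_path (e : A) : pathB tl hd (sh (hd e)) (θ k e) (sh (tl e)) = true := by
  unfold θ
  cases h : lab e with
  | true =>
    have h1 := th_path e
    rw [← (th_long e h).1] at h1 ⊢
    simpa using path_replicate h1 k
  | false => simpa using th_path e

lemma θ'_path (e : A) : pathB hd tl (sh (tl e)) (θ' k e) (sh (hd e)) = true :=
  path_reverse (θ_path e)

lemma flat_ρ (l : List A) : l.flatMap (ρ k) = (l.flatMap (θ' k)).flatMap (θ k) := by
  rw [List.flatMap_assoc]; rfl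

lemma flat_ρ' (l : List A) : l.flatMap (ρ' k) = (l.flatMap (θ k)).flatMap (θ' k) := by
  rw [List.flatMap_assoc]; rfl

lemma θ'_zero : θ' k 0 = [6] := rfl

lemma conj (n : ℕ) : (it (ρ k) n [0]).flatMap (θ' k) = it (ρ' k) n [6] := by
  induction n with
  | zero => simp [θ'_zero]
  | succ n ih => rw [it_succ', it_succ', flat_ρ, flat_ρ', ih]

lemma conj' (n : ℕ) : (it (ρ' k) n [6]).flatMap (θ k) = it (ρ k) (n + 1) [0] := by
  rw [it_succ', flat_ρ, conj]

lemma ρ_ne (hk : 0 < k) (e : A) : ρ k e ≠ [] := by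
  have h1 := len_flatMap_ge (θ_ne hk) (θ' k e)
  have h2 := List.length_pos_iff.2 (θ'_ne hk e)
  exact List.length_pos_iff.1 (lt_of_lt_of_le h2 h1)

lemma ρ'_ne (hk : 0 < k) (e : A) : ρ' k e ≠ [] := by
  have h1 := len_flatMap_ge (θ'_ne hk) (θ k e)
  have h2 := List.length_pos_iff.2 (θ_ne hk e)
  exact List.length_pos_iff.1 (lt_of_lt_of_le h2 h1)

lemma θ_six (hk : 0 < k) : ∃ u, θ k 6 = 0 :: u ∧ u ≠ [] := by
  obtain ⟨j, rfl⟩ : ∃ j, k = j + 1 := ⟨k - 1, by omega⟩
  refine ⟨[11, 13, 8, 0, 11, 13, 8] ++ (List.replicate j (th 6)).flatten, ?_, by simp⟩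
  have h : lab 6 = true := rfl
  have h' : th 6 = [0, 11, 13, 8, 0, 11, 13, 8] := rfl
  simp only [θ, h, if_true, List.replicate_succ, List.flatten_cons]
  rw [h']
  rfl

lemma fix_w (hk : 0 < k) : ∃ w, Fix (ρ k) 0 w := by
  obtain ⟨u, h1, h2⟩ := θ_six hk
  refine exists_fix (ρ_ne hk) (u := u) ?_ h2
  rw [ρ, θ'_zero, List.flatMap_singleton, h1]

lemma fix_v (hk : 0 < k) : ∃ v, Fix (ρ' k) 6 v := by
  obtain ⟨u, h1, h2⟩ := θ_six hk
  refine exists_fix (ρ'_ne hk) (u := u.flatMap (θ' k)) ?_ ?_
  · rw [ρ', h1, List.flatMap_cons, θ'_zero]; rfl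
  · have h3 := len_flatMap_ge (θ'_ne hk) u
    have h4 := List.length_pos_iff.2 h2
    exact List.length_pos_iff.1 (lt_of_lt_of_le h4 h3)

lemma it_path (n : ℕ) : ∃ p q, pathB tl hd p (it (ρ k) n [0]) q = true := by
  induction n with
  | zero => exact ⟨tl 0, hd 0, by simp [pathB]⟩
  | succ n ih =>
    obtain ⟨p, q, h⟩ := ih
    rw [it_succ', flat_ρ]
    exact ⟨_, _, path_flatMap (f := sh) θ_path (path_flatMap (f := sh) θ'_path h)⟩

lemma it_path' (n : ℕ) : ∃ p q, pathB hd tl p (it (ρ' k) n [6]) q = true := by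
  obtain ⟨p, q, h⟩ := it_path (k := k) n
  rw [← conj]
  exact ⟨_, _, path_flatMap (f := sh) θ'_path h⟩

variable {w v : ℕ → A}

lemma col_w (hw : Fix (ρ k) 0 w) (i : ℕ) : cs (tl (w i)) = decide (i % 2 = 0) := by
  induction i with
  | zero => rw [hw.pre 0 0 0 (by simp)]; rfl
  | succ i ih =>
    obtain ⟨n, hn⟩ := hw.grow (i + 2)
    obtain ⟨p, q, h⟩ := it_path (k := k) n
    rw [hw.eq_seg n] at h
    rw [← path_adj h hn.le, cs_flip, ih]
    rcases Nat.mod_two_eq_zero_or_one i with h | h <;> simp [Nat.add_mod, h]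

lemma col_v (hv : Fix (ρ' k) 6 v) (i : ℕ) : cs (tl (v i)) = !decide (i % 2 = 0) := by
  induction i with
  | zero => rw [hv.pre 0 0 6 (by simp)]; rfl
  | succ i ih =>
    obtain ⟨n, hn⟩ := hv.grow (i + 2)
    obtain ⟨p, q, h⟩ := it_path' (k := k) n
    rw [hv.eq_seg n] at h
    rw [path_adj h hn.le, cs_flip] at ih
    rcases Nat.mod_two_eq_zero_or_one i with h | h <;> simpa [Nat.add_mod, h] using ih

lemma seg_prefix {σ : A → List A} {a : A} (hw : Fix σ a w) (r : ℕ) :
    ∃ n, seg w 0 r <+: it σ n [a] := by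
  obtain ⟨n, hn⟩ := hw.grow r
  refine ⟨n, ?_⟩
  rw [hw.eq_seg n, show (it σ n [a]).length = r + ((it σ n [a]).length - r) by omega, seg_append]
  exact List.prefix_append _ _

lemma flat_prefix {φ : A → List A} {u z : List A} (h : u <+: z) :
    u.flatMap φ <+: z.flatMap φ := by
  obtain ⟨y, rfl⟩ := h
  rw [List.flatMap_append]
  exact List.prefix_append _ _

lemma run_v (hk : 0 < k) (hw : Fix (ρ k) 0 w) (hv : Fix (ρ' k) 6 v) {n i : ℕ}
    (h1 : ∑ j ∈ range i, val k (w j) ≤ n) (h2 : n < ∑ j ∈ range (i + 1), val k (w j)) :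
    val k (v n) = if i % 2 = 0 then 8 * k else 1 := by
  have h : v n ∈ θ' k (w i) := by
    refine runs (fun r => ?_) (by simpa only [θ'_len] using h1) (by simpa only [θ'_len] using h2)
    obtain ⟨m, hm⟩ := seg_prefix hw r
    refine ⟨(it (ρ' k) m [6]).length, ?_⟩
    rw [← hv.eq_seg m, ← conj]
    exact flat_prefix hm
  rw [val, th_lab _ _ ((mem_θ' hk).1 h), col_w hw]
  simp

lemma run_w (hk : 0 < k) (hw : Fix (ρ k) 0 w) (hv : Fix (ρ' k) 6 v) {n i : ℕ}
    (h1 : ∑ j ∈ range i, val k (v j) ≤ n) (h2 : n < ∑ j ∈ range (i + 1), val k (v j)) :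
    val k (w n) = if i % 2 = 0 then 1 else 8 * k := by
  have h : w n ∈ θ k (v i) := by
    refine runs (fun r => ?_) (by simpa only [θ_len] using h1) (by simpa only [θ_len] using h2)
    obtain ⟨m, hm⟩ := seg_prefix hv r
    refine ⟨(it (ρ k) (m + 1) [0]).length, ?_⟩
    rw [← hw.eq_seg (m + 1), ← conj']
    exact flat_prefix hm
  rw [val, th_lab _ _ ((mem_θ hk).1 h), col_v hv]
  by_cases hi : i % 2 = 0 <;> simp [hi]

lemma reach_sub (hk : 0 < k) (r : ℕ) (e f : A) (h : f ∈ reach (2 * r) e) :
    f ∈ it (ρ k) r [e] := by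
  induction r generalizing f with
  | zero => simpa [reach] using h
  | succ r ih =>
    rw [show 2 * (r + 1) = 2 * r + 1 + 1 by ring] at h
    simp only [reach, List.mem_dedup, List.mem_flatMap] at h
    obtain ⟨g, ⟨g', h1, h2⟩, h3⟩ := h
    rw [it_succ', flat_ρ]
    simp only [List.mem_flatMap]
    exact ⟨g, ⟨g', ih _ h1, (mem_θ' hk).2 h2⟩, (mem_θ hk).2 h3⟩

lemma prim (hk : 0 < k) (e f : A) : f ∈ it (ρ k) 6 [e] := reach_sub hk 6 e f (reach_all e f)

end Pool.Agent.MP_48844b_co.H53
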